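import Mathlib
import Pool.Agent.H6.W.JDef
import Pool.Agent.H98.W.EndBlk3

set_option autoImplicit false
open Finset

/-! # Route W, E10: one ring around a point of a chain of plates

`RingT` (around the tip) and `RingS` (around an interior point of the chain) are the statements for one
annulus `a n < |.| < K a n` (sup norm of the vertices); `RS_of_ring` : they imply `RS`. -/

namespace Pool.Agent.H67.W

open Pool.Agent.H75.Perc hiding WL CT hh EE sh PB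
open Pool.Agent.H75.TwoArm Pool.Agent.H75.Four Pool.Agent.H69.Q1 Pool.Agent.Q1
open Pool.Agent.Q1.M4 (Cell)
open Pool.Agent.H60.Q1 Pool.Agent.H20.Q1 Pool.Agent.H33.Q1
open Pool.Agent.H58.W Pool.Agent.H50.W Pool.Agent.H98.W Pool.Agent.H6.W

/-- hypotheses on a chain in the square of half side `R` -/
structure ChOk (R M τ : ℕ) (x0 : ℤ) : Prop where
  M0 : 0 < M
  τ0 : 0 < τ
  dvd : (M : ℤ) ∣ x0
  x00 : 0 ≤ x0
  x0R : x0 ≤ R
  thin : 64 * ((τ : ℝ) + 2 * R / M) ≤ M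

/-- the labels of the square -/
noncomputable abbrev EC (R h : ℕ) : Finset (ℤ × ℤ) := TL (RC (-R) R (-R) R) (2 * h)

/-- the block map of the chain -/
noncomputable abbrev bC (h M τ : ℕ) (x0 : ℤ) : ℤ × ℤ → (ℤ × ℤ) ⊕ ℕ := bk (2 * (h : ℤ)) (chn x0 M τ)

/-- no open arm and no dual arm with probability at least `c` each, in the annulus `F` -/
def RingAt {β : Type*} [DecidableEq β] (F : Finset (ℤ × ℤ)) (b : ℤ × ℤ → β) (s t : ℤ) (c : ℝ) :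
    Prop :=
  PB F b (OA 0 (s + 1) (t - 1)) ≤ 1 - c ∧ PB F b (fun ω => OA 0 (s + 1) (t - 1) (du F ω)) ≤ 1 - c

/-- **one ring around the tip** -/
def RingT (K C0 : ℕ) (c : ℝ) : Prop :=
  ∀ R M τ : ℕ, ChOk R M τ 0 → ∀ a : ℕ, C0 * M ≤ a → 2 * K * a ≤ R → ∃ h0 : ℕ, ∀ h : ℕ, h0 ≤ h →
    RingAt (EC R h ∩ An 0 (a * (2 * h)) (K * a * (2 * h))) (bC h M τ 0) (a * (2 * h))
      (K * a * (2 * h)) c

/-- **one ring around an interior point of the chain** -/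
def RingS (K C0 : ℕ) (c : ℝ) : Prop :=
  ∀ (R M τ : ℕ) (x0 : ℤ), ChOk R M τ x0 → ∀ a : ℕ, C0 * M ≤ a → 2 * K * a ≤ R →
    (2 * K * a : ℤ) ≤ x0 → ∃ h0 : ℕ, ∀ h : ℕ, h0 ≤ h →
      RingAt (EC R h ∩ An 0 (a * (2 * h)) (K * a * (2 * h))) (bC h M τ x0) (a * (2 * h))
        (K * a * (2 * h)) c

/-! ### Arms and radii -/

variable {n : ℤ} {r1 r2 : ℕ}

lemma near_tv {u : ℤ × ℤ} {s : ℤ} (h : |(tv u).1| ≤ s ∧ |(tv u).2| ≤ s) : Near 0 s u := by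
  unfold tv at h
  unfold Near
  rw [abs_le, abs_le] at h ⊢
  simp only [Prod.fst_zero, Prod.snd_zero] at h ⊢
  omega

lemma far_tv {u : ℤ × ℤ} {s t : ℤ} (h : s ≤ |(tv u).1| ∨ s ≤ |(tv u).2|) (ht : 2 * t ≤ s) :
    Far 0 t u := by
  unfold tv at h
  unfold Far
  rw [le_abs, le_abs] at h ⊢
  simp only [Prod.fst_zero, Prod.snd_zero] at h ⊢
  omega

lemma armO_OA {ω : Finset (ℤ × ℤ)} {s t : ℤ} (h : ArmO n r1 r2 ω) (h1 : r1 * n ≤ s)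
    (h2 : 2 * t ≤ r2 * n) : OA 0 s t ω := by
  obtain ⟨u, v, h3, ⟨h4, h5⟩, h6⟩ := h
  exact ⟨u, v, near_tv ⟨h4.trans h1, h5.trans h1⟩, far_tv h6 h2, h3⟩

lemma armD_OA {F ω : Finset (ℤ × ℤ)} {s t : ℤ} (h : ArmD F n r1 r2 ω) (h1 : r1 * n ≤ s)
    (h2 : 2 * t ≤ r2 * n) : OA 0 s t (du F ω) := by
  obtain ⟨u, v, h3, ⟨h4, h5⟩, h6⟩ := h
  exact ⟨u, v, near_tv ⟨h4.trans h1, h5.trans h1⟩, far_tv h6 h2, h3⟩

lemma du_odd {E ω : Finset (ℤ × ℤ)} (hE : ∀ e ∈ E, (e.1 + e.2) % 2 = 1) :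
    ∀ e ∈ du E ω, (e.1 + e.2) % 2 = 1 := by
  intro e he
  unfold du at he
  rw [mem_map] at he
  obtain ⟨l, hl, rfl⟩ := he
  have := hE l (mem_sdiff.1 hl).1
  simp only [sh1, Function.Embedding.coeFn_mk]
  omega

/-- the part of a dual configuration in an annulus is a dual configuration of the annulus -/
lemma du_An {E ω : Finset (ℤ × ℤ)} (hE : ∀ e ∈ E, (e.1 + e.2) % 2 = 1) {s t : ℤ} :
    du E ω ∩ An 0 (s + 1) (t - 1) ⊆ du (E ∩ An 0 s t) (ω ∩ (E ∩ An 0 s t)) := by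
  intro e he
  obtain ⟨h1, h2⟩ := mem_inter.1 he
  unfold du at h1 ⊢
  rw [mem_map] at h1 ⊢
  obtain ⟨l, hl, rfl⟩ := h1
  obtain ⟨h3, h4⟩ := mem_sdiff.1 hl
  refine ⟨l, ?_, rfl⟩
  rw [mem_sdiff, mem_inter, mem_inter]
  refine ⟨⟨h3, ?_⟩, fun h5 => h4 h5.1⟩
  have hodd := hE l h3
  rw [mem_sdiff, mem_Bx, mem_Bx] at h2 ⊢
  simp only [sh1, Function.Embedding.coeFn_mk, Prod.fst_zero, Prod.snd_zero] at h2 ⊢
  omega

/-- from the arm to the annulus -/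
lemma OA_cut {E ω : Finset (ℤ × ℤ)} (hE : ∀ e ∈ E, (e.1 + e.2) % 2 = 1) (hω : ω ⊆ E) {s t : ℤ}
    (hst : s + 2 < t) (h : OA 0 s t ω) : OA 0 (s + 1) (t - 1) (ω ∩ (E ∩ An 0 s t)) := by
  have h1 : OA 0 (s + 1) (t - 1) ω := OA_radii (by omega) (by omega) h
  have h2 := OA_local (fun l hl => hE l (hω hl)) (by omega) h1
  refine OA_mono ?_ h2
  intro l hl
  obtain ⟨h3, h4⟩ := mem_inter.1 hl
  rw [mem_inter, mem_inter]
  refine ⟨h3, hω h3, ?_⟩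
  rw [mem_sdiff, mem_Bx, mem_Bx] at h4 ⊢
  simp only [Prod.fst_zero, Prod.snd_zero] at h4 ⊢
  omega

lemma OA_cut_du {E ω : Finset (ℤ × ℤ)} (hE : ∀ e ∈ E, (e.1 + e.2) % 2 = 1) {s t : ℤ}
    (hst : s + 2 < t) (h : OA 0 s t (du E ω)) :
    OA 0 (s + 1) (t - 1) (du (E ∩ An 0 s t) (ω ∩ (E ∩ An 0 s t))) := by
  have h1 : OA 0 (s + 1) (t - 1) (du E ω) := OA_radii (by omega) (by omega) h
  exact OA_mono (du_An hE) (OA_local (du_odd hE) (by omega) h1)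

end Pool.Agent.H67.W
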