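import Mathlib
import Pool.Agent.H67.W.Ring

set_option autoImplicit false
open Finset

/-! # Route W, E10: one arm around a point of a chain of plates (`RS`) from one ring -/

namespace Pool.Agent.H67.W

open Pool.Agent.H75.Perc hiding WL CT hh EE sh PB
open Pool.Agent.H75.TwoArm Pool.Agent.H75.Four Pool.Agent.H69.Q1 Pool.Agent.Q1
open Pool.Agent.Q1.M4 (Cell)
open Pool.Agent.H60.Q1 Pool.Agent.H20.Q1 Pool.Agent.H33.Q1
open Pool.Agent.H58.W Pool.Agent.H50.W Pool.Agent.H98.W Pool.Agent.H6.W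

/-! ### Separation -/

lemma chn_some {x0 : ℤ} {M τ i : ℕ} {c : Cell} (h : chn x0 M τ c = some i) :
    c.1 < x0 ∧ ((x0 - c.1 - 1) / (M : ℤ)).toNat = i ∧ -((τ : ℤ) + i) ≤ c.2 ∧ c.2 < (τ : ℤ) + i := by
  unfold chn at h
  split_ifs at h with h1
  simp only at h
  split_ifs at h with h2
  rw [Option.some.injEq] at h
  refine ⟨h1, h, ?_⟩
  rw [← h]
  exact h2

/-- the plates in the square are thin -/
lemma chn_thin {R M τ i : ℕ} {x0 : ℤ} (hc : ChOk R M τ x0) {c : Cell} (h : chn x0 M τ c = some i)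
    (hR : -(R : ℤ) ≤ c.1) : 64 * ((τ : ℤ) + i) ≤ M := by
  obtain ⟨h1, h2, -⟩ := chn_some h
  have hM : (0 : ℤ) < M := by exact_mod_cast hc.M0
  have hMr : (0 : ℝ) < M := by exact_mod_cast hc.M0
  have h3 : (i : ℤ) * M ≤ 2 * R := by
    have h4 : (0 : ℤ) ≤ (x0 - c.1 - 1) / M := Int.ediv_nonneg (by omega) hM.le
    have h5 : (i : ℤ) = (x0 - c.1 - 1) / M := by
      rw [← h2]; exact Int.toNat_of_nonneg h4
    rw [h5]
    have h6 := Int.ediv_mul_le (x0 - c.1 - 1) hM.ne'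
    have := hc.x0R
    linarith
  have h4 : (i : ℝ) ≤ 2 * R / M := by
    rw [le_div_iff₀ hMr]
    exact_mod_cast h3
  have h5 := hc.thin
  have h6 : 64 * ((τ : ℝ) + i) ≤ M := by linarith
  exact_mod_cast h6

/-- **labels of separated annuli are in different blocks** -/
theorem sep_An {R M τ : ℕ} {x0 : ℤ} (hc : ChOk R M τ x0) {K a a' h : ℕ} (hK : 0 < K) (hh : 0 < h)
    (ha : M ≤ a) (haa : 4 * K * a ≤ a') :
    Sep (bC h M τ x0) (EC R h ∩ An 0 (a * (2 * h)) (K * a * (2 * h)))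
      (EC R h ∩ An 0 (a' * (2 * h)) (K * a' * (2 * h))) := by
  intro l hl l' hl' heq
  obtain ⟨hE, hA⟩ := mem_inter.1 hl
  obtain ⟨hE', hA'⟩ := mem_inter.1 hl'
  have hn : (0 : ℤ) < 2 * (h : ℤ) := by positivity
  set n : ℤ := 2 * (h : ℤ) with hndef
  obtain ⟨hA1, -⟩ := mem_sdiff.1 hA
  obtain ⟨-, hA2⟩ := mem_sdiff.1 hA'
  rw [mem_TL hn] at hE hE'
  rw [mem_Bx] at hA1 hA2
  simp only [Prod.fst_zero, Prod.snd_zero, zero_sub, zero_add] at hA1 hA2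
  have e1 : (4 * K * a : ℤ) ≤ a' := by exact_mod_cast haa
  have e2 : (4 * ((K : ℤ) * a * n)) ≤ (a' : ℤ) * n := by
    have := mul_le_mul_of_nonneg_right e1 hn.le
    linarith
  have e3 : (0 : ℤ) ≤ (K : ℤ) * a * n := by positivity
  have e4 : (M : ℤ) * n ≤ (K : ℤ) * a * n := by
    have h1 : (M : ℤ) ≤ a := by exact_mod_cast ha
    have h2 : (1 : ℤ) ≤ K := by exact_mod_cast hK
    have h3 : (M : ℤ) ≤ K * a := by nlinarith
    exact mul_le_mul_of_nonneg_right h3 hn.le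
  have e5 : (2 : ℤ) ≤ (M : ℤ) * n := by
    have h1 : (1 : ℤ) ≤ M := by exact_mod_cast hc.M0
    have h2 : (2 : ℤ) ≤ n := by rw [hndef]; omega
    nlinarith
  generalize hU : (K : ℤ) * a * n = U at *
  generalize hV : (a' : ℤ) * n = V at *
  generalize hW : (M : ℤ) * n = W at *
  rcases (bk_eq_iff (n := n)).1 heq with h1 | ⟨h1, h2⟩
  · subst h1
    omega
  · obtain ⟨i, hi⟩ := Option.ne_none_iff_exists'.1 h1
    rw [hi] at h2
    have hi' := h2.symm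
    have hR : -(R : ℤ) ≤ (ct n (tt l)).1 := by
      have := hE.2
      unfold RC at this
      rw [mem_product, mem_Ico] at this
      exact this.1.1
    have hR' : -(R : ℤ) ≤ (ct n (tt l')).1 := by
      have := hE'.2
      unfold RC at this
      rw [mem_product, mem_Ico] at this
      exact this.1.1
    have t1 := chn_thin hc hi hR
    obtain ⟨f1, f2, f3, f4⟩ := chn_some hi
    obtain ⟨g1, g2, g3, g4⟩ := chn_some hi'
    obtain ⟨⟨p1, p2⟩, p3, p4⟩ := (ct_eq hn (p := tt l) (c := ct n (tt l))).1 rfl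
    obtain ⟨⟨q1, q2⟩, q3, q4⟩ := (ct_eq hn (p := tt l') (c := ct n (tt l'))).1 rfl
    set C := ct n (tt l) with hC
    set D := ct n (tt l') with hD
    have hM : (0 : ℤ) < M := by exact_mod_cast hc.M0
    -- the cells of one plate are at distance less than `M`
    have k1 : D.1 - C.1 < M ∧ C.1 - D.1 < M := by
      have h5 : (i : ℤ) = (x0 - C.1 - 1) / M := by
        rw [← f2]; exact Int.toNat_of_nonneg (Int.ediv_nonneg (by omega) hM.le)
      have h6 : (i : ℤ) = (x0 - D.1 - 1) / M := by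
        rw [← g2]; exact Int.toNat_of_nonneg (Int.ediv_nonneg (by omega) hM.le)
      have h7 := Int.ediv_mul_le (x0 - C.1 - 1) hM.ne'
      have h8 := Int.lt_ediv_add_one_mul_self (x0 - C.1 - 1) hM
      have h9 := Int.ediv_mul_le (x0 - D.1 - 1) hM.ne'
      have h10 := Int.lt_ediv_add_one_mul_self (x0 - D.1 - 1) hM
      rw [← h5] at h7 h8
      rw [← h6] at h9 h10
      constructor <;> nlinarith
    have k2 : (tt l').1 - (tt l).1 < W ∧ (tt l).1 - (tt l').1 < W := by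
      rw [← hW]
      constructor
      · have : (D.1 - C.1 + 1) * n ≤ M * n := mul_le_mul_of_nonneg_right (by omega) hn.le
        linarith
      · have : (C.1 - D.1 + 1) * n ≤ M * n := mul_le_mul_of_nonneg_right (by omega) hn.le
        linarith
    have k3 : -W ≤ (tt l').2 ∧ (tt l').2 < W := by
      rw [← hW]
      have a1 : ((τ : ℤ) + i) * n ≤ M * n := mul_le_mul_of_nonneg_right (by omega) hn.le
      constructor
      · have : -((τ : ℤ) + i) * n ≤ D.2 * n := mul_le_mul_of_nonneg_right g3 hn.le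
        linarith
      · have : (D.2 + 1) * n ≤ ((τ : ℤ) + i) * n := mul_le_mul_of_nonneg_right (by omega) hn.le
        linarith
    have o1 := hE.1
    have o2 := hE'.1
    unfold tt at k2 k3
    simp only at k2 k3
    omega

/-! ### The product -/

theorem prod_ring {β : Type*} [DecidableEq β] {E : Finset (ℤ × ℤ)} {b : ℤ × ℤ → β}
    (hE : ∀ e ∈ E, (e.1 + e.2) % 2 = 1) {c : ℝ} (m : ℕ) (s t : ℕ → ℤ)
    (hst : ∀ k < m, s k + 2 < t k)
    (hs : ∀ i < m, ∀ j < m, i ≠ j → Sep b (E ∩ An 0 (s i) (t i)) (E ∩ An 0 (s j) (t j)))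
    (hr : ∀ k < m, RingAt (E ∩ An 0 (s k) (t k)) b (s k) (t k) c)
    {A B : Finset (ℤ × ℤ) → Prop} (hA : ∀ ω, ω ⊆ E → A ω → ∀ k < m, OA 0 (s k) (t k) ω)
    (hB : ∀ ω, ω ⊆ E → B ω → ∀ k < m, OA 0 (s k) (t k) (du E ω)) :
    PB E b A ≤ (1 - c) ^ m ∧ PB E b B ≤ (1 - c) ^ m := by
  have hs' : ∀ i ∈ range m, ∀ j ∈ range m, i ≠ j →
      Sep b (E ∩ An 0 (s i) (t i)) (E ∩ An 0 (s j) (t j)) := fun i hi j hj =>
    hs i (mem_range.1 hi) j (mem_range.1 hj)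
  constructor
  · have h := PB_prod_le (E := E) (b := b) (fun i => E ∩ An 0 (s i) (t i))
      (fun i => OA 0 (s i + 1) (t i - 1)) (range m) (fun _ _ => inter_subset_left) hs'
      (c := 1 - c) (fun i hi => (hr i (mem_range.1 hi)).1)
    rw [card_range] at h
    refine le_trans (PB_mono fun ω hω h1 i hi => ?_) h
    exact OA_cut hE hω (hst i (mem_range.1 hi)) (hA ω hω h1 i (mem_range.1 hi))
  · have h := PB_prod_le (E := E) (b := b) (fun i => E ∩ An 0 (s i) (t i))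
      (fun i ω => OA 0 (s i + 1) (t i - 1) (du (E ∩ An 0 (s i) (t i)) ω)) (range m)
      (fun _ _ => inter_subset_left) hs' (c := 1 - c) (fun i hi => (hr i (mem_range.1 hi)).2)
    rw [card_range] at h
    refine le_trans (PB_mono fun ω hω h1 i hi => ?_) h
    exact OA_cut_du hE (hst i (mem_range.1 hi)) (hB ω hω h1 i (mem_range.1 hi))

lemma exists_scales {q r1 r2 : ℕ} (hq : 1 < q) (h1 : 0 < r1) (h : r1 ≤ r2) :
    ∃ m : ℕ, r1 * q ^ m ≤ r2 ∧ r2 < r1 * q ^ (m + 1) := by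
  have h2 : r2 / r1 ≠ 0 := by
    have := Nat.div_pos h h1
    omega
  refine ⟨Nat.log q (r2 / r1), ?_, ?_⟩
  · have h3 := Nat.pow_log_le_self q h2
    calc r1 * q ^ Nat.log q (r2 / r1) ≤ r1 * (r2 / r1) := Nat.mul_le_mul_left _ h3
      _ ≤ r2 := Nat.mul_div_le r2 r1
  · have h3 := Nat.lt_pow_succ_log_self hq (r2 / r1)
    have h4 := (Nat.div_lt_iff_lt_mul h1).1 h3
    rw [mul_comm]
    exact h4

lemma pow_le_rpow {q r1 r2 m : ℕ} {c : ℝ} (hc0 : 0 < c) (hc1 : c < 1) (hq : 1 < q) (h1 : 0 < r1)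
    (h2 : 0 < r2) (h : r2 < r1 * q ^ (m + 1)) :
    (1 - c) ^ m ≤ (1 - c)⁻¹ * ((r1 : ℝ) / r2) ^ (-Real.log (1 - c) / Real.log q) := by
  have hc : 0 < 1 - c := by linarith
  have hqr : (1 : ℝ) < q := by exact_mod_cast hq
  have hlq : 0 < Real.log q := Real.log_pos hqr
  have hlc : Real.log (1 - c) < 0 := Real.log_neg hc (by linarith)
  have r1p : (0 : ℝ) < r1 := by exact_mod_cast h1
  have r2p : (0 : ℝ) < r2 := by exact_mod_cast h2
  have h3 : (r2 : ℝ) ≤ r1 * (q : ℝ) ^ (m + 1) := by exact_mod_cast h.le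
  have h4 : ((q : ℝ) ^ (m + 1))⁻¹ ≤ (r1 : ℝ) / r2 := by
    rw [inv_eq_one_div, div_le_div_iff₀ (by positivity) r2p]
    linarith
  have h5 : (((q : ℝ) ^ (m + 1))⁻¹) ^ (-Real.log (1 - c) / Real.log q) = (1 - c) ^ (m + 1) := by
    have e1 : Real.log (((q : ℝ) ^ (m + 1))⁻¹) = -((m + 1 : ℕ) : ℝ) * Real.log q := by
      rw [Real.log_inv, Real.log_pow]
      ring
    rw [Real.rpow_def_of_pos (by positivity), e1]
    have e2 : -((m + 1 : ℕ) : ℝ) * Real.log q * (-Real.log (1 - c) / Real.log q) =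
        ((m + 1 : ℕ) : ℝ) * Real.log (1 - c) := by
      field_simp
    rw [e2, mul_comm, Real.exp_mul, Real.exp_log hc, Real.rpow_natCast]
  have h6 : (1 - c) ^ (m + 1) ≤ ((r1 : ℝ) / r2) ^ (-Real.log (1 - c) / Real.log q) := by
    rw [← h5]
    exact Real.rpow_le_rpow (by positivity) h4 (div_nonneg (by linarith) hlq.le)
  have h7 : (1 - c) ^ m = (1 - c)⁻¹ * (1 - c) ^ (m + 1) := by
    rw [pow_succ]
    field_simp
  rw [h7]
  exact mul_le_mul_of_nonneg_left h6 (by positivity)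

/-- **From rings to arms**, any coin model: a ring at every scale `a n`, plates of different rings
different. -/
theorem arms_abs {β : Type*} [DecidableEq β] {E : Finset (ℤ × ℤ)} {b : ℤ × ℤ → β}
    (hE : ∀ e ∈ E, (e.1 + e.2) % 2 = 1) {n : ℤ} (hn : 4 ≤ n) {K : ℕ} {c : ℝ} (hK : 1 < K)
    {r1 r2 m : ℕ} (h1 : 0 < r1) (hm : r1 * (4 * K) ^ m ≤ r2)
    (hs : ∀ a a' : ℕ, r1 ≤ a → 4 * K * a ≤ a' → a' ≤ r2 →
      Sep b (E ∩ An 0 (a * n) (K * a * n)) (E ∩ An 0 (a' * n) (K * a' * n)))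
    (hr : ∀ a : ℕ, r1 ≤ a → 2 * K * a ≤ r2 →
      RingAt (E ∩ An 0 (a * n) (K * a * n)) b (a * n) (K * a * n) c)
    {A B : Finset (ℤ × ℤ) → Prop}
    (hA : ∀ ω, ω ⊆ E → A ω → ∀ s t : ℤ, r1 * n ≤ s → 2 * t ≤ r2 * n → OA 0 s t ω)
    (hB : ∀ ω, ω ⊆ E → B ω → ∀ s t : ℤ, r1 * n ≤ s → 2 * t ≤ r2 * n → OA 0 s t (du E ω)) :
    PB E b A ≤ (1 - c) ^ m ∧ PB E b B ≤ (1 - c) ^ m := by
  set a : ℕ → ℕ := fun k => r1 * (4 * K) ^ k with ha
  have ha1 : ∀ k, r1 ≤ a k := fun k => Nat.le_mul_of_pos_right _ (by positivity)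
  have hstep : ∀ k, a (k + 1) = 4 * K * a k := by
    intro k
    simp only [ha, pow_succ]
    ring
  have hmono : ∀ i j, i ≤ j → a i ≤ a j := by
    intro i j hij
    exact Nat.mul_le_mul_left _ (Nat.pow_le_pow_right (by omega) hij)
  have hlt : ∀ i j, i < j → 4 * K * a i ≤ a j := by
    intro i j hij
    rw [← hstep]
    exact hmono _ _ hij
  have hr2 : ∀ k < m, 2 * K * a k ≤ r2 := by
    intro k hk
    have h3 := hlt k m hk
    have h4 : 2 * K * a k ≤ 4 * K * a k := by nlinarith [Nat.zero_le (K * a k)]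
    exact (h4.trans h3).trans hm
  have ham : ∀ k < m, a k ≤ r2 := by
    intro k hk
    exact (hmono k m hk.le).trans hm
  have hgrow : ∀ k < m, 2 * ((K : ℤ) * a k * n) ≤ r2 * n := by
    intro k hk
    have g1 : ((2 * K * a k : ℕ) : ℤ) ≤ r2 := by exact_mod_cast hr2 k hk
    push_cast at g1
    calc 2 * ((K : ℤ) * a k * n) = (2 * K * a k) * n := by ring
      _ ≤ r2 * n := mul_le_mul_of_nonneg_right g1 (by omega)
  have hlow : ∀ k, (r1 : ℤ) * n ≤ a k * n := fun k =>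
    mul_le_mul_of_nonneg_right (by exact_mod_cast ha1 k) (by omega)
  refine prod_ring hE m (fun k => (a k : ℤ) * n) (fun k => (K : ℤ) * a k * n) ?_ ?_ ?_ ?_ ?_
  · intro k hk
    have g1 : (1 : ℤ) ≤ a k := by exact_mod_cast (lt_of_lt_of_le h1 (ha1 k))
    have g2 : (2 : ℤ) ≤ K := by exact_mod_cast hK
    show (a k : ℤ) * n + 2 < (K : ℤ) * a k * n
    have g4 : (K : ℤ) * a k * n = a k * n + (K - 1) * (a k * n) := by ring
    have g5 : (4 : ℤ) ≤ a k * n := by nlinarith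
    rw [g4]
    nlinarith
  · intro i hi j hj hij
    rcases Nat.lt_or_gt_of_ne hij with h3 | h3
    · exact hs _ _ (ha1 i) (hlt i j h3) (ham j hj)
    · exact (hs _ _ (ha1 j) (hlt j i h3) (ham i hi)).symm
  · intro k hk
    exact hr (a k) (ha1 k) (hr2 k hk)
  · intro ω hω hA' k hk
    exact hA ω hω hA' _ _ (hlow k) (hgrow k hk)
  · intro ω hω hB' k hk
    exact hB ω hω hB' _ _ (hlow k) (hgrow k hk)

/-- `arms_abs` in the form `C (r1 / r2) ^ e`, `e = - log (1 - c) / log (4 K)`, `C = 1 / (1 - c)`. -/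
theorem arms_abs' {β : Type*} [DecidableEq β] {E : Finset (ℤ × ℤ)} {b : ℤ × ℤ → β}
    (hE : ∀ e ∈ E, (e.1 + e.2) % 2 = 1) {n : ℤ} (hn : 4 ≤ n) {K : ℕ} {c : ℝ} (hK : 1 < K)
    (hc0 : 0 < c) (hc1 : c < 1) {r1 r2 : ℕ} (h1 : 0 < r1) (h12 : r1 ≤ r2)
    (hs : ∀ a a' : ℕ, r1 ≤ a → 4 * K * a ≤ a' → a' ≤ r2 →
      Sep b (E ∩ An 0 (a * n) (K * a * n)) (E ∩ An 0 (a' * n) (K * a' * n)))
    (hr : ∀ a : ℕ, r1 ≤ a → 2 * K * a ≤ r2 →
      RingAt (E ∩ An 0 (a * n) (K * a * n)) b (a * n) (K * a * n) c)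
    {A B : Finset (ℤ × ℤ) → Prop}
    (hA : ∀ ω, ω ⊆ E → A ω → ∀ s t : ℤ, r1 * n ≤ s → 2 * t ≤ r2 * n → OA 0 s t ω)
    (hB : ∀ ω, ω ⊆ E → B ω → ∀ s t : ℤ, r1 * n ≤ s → 2 * t ≤ r2 * n → OA 0 s t (du E ω)) :
    PB E b A ≤ (1 - c)⁻¹ * ((r1 : ℝ) / r2) ^ (-Real.log (1 - c) / Real.log ((4 * K : ℕ) : ℝ)) ∧
    PB E b B ≤ (1 - c)⁻¹ * ((r1 : ℝ) / r2) ^ (-Real.log (1 - c) / Real.log ((4 * K : ℕ) : ℝ)) := by
  obtain ⟨m, hm1, hm2⟩ := exists_scales (q := 4 * K) (by omega) h1 h12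
  have h3 := pow_le_rpow (q := 4 * K) hc0 hc1 (by omega) h1 (lt_of_lt_of_le h1 h12) hm2
  obtain ⟨h4, h5⟩ := arms_abs hE hn hK h1 hm1 hs hr hA hB
  exact ⟨h4.trans h3, h5.trans h3⟩

/-- **From rings to arms**, one chain. -/
theorem arms_of_rings {R M τ : ℕ} {x0 : ℤ} (hc : ChOk R M τ x0) {K C0 : ℕ} {c : ℝ} (hK : 1 < K)
    (hC0 : 0 < C0) {r1 r2 : ℕ} (h1 : C0 * M ≤ r1) (h12 : r1 ≤ r2)
    (hr : ∀ a : ℕ, C0 * M ≤ a → 2 * K * a ≤ r2 → ∃ h0 : ℕ, ∀ h : ℕ, h0 ≤ h →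
      RingAt (EC R h ∩ An 0 (a * (2 * h)) (K * a * (2 * h))) (bC h M τ x0) (a * (2 * h))
        (K * a * (2 * h)) c) :
    ∃ m : ℕ, r2 < r1 * (4 * K) ^ (m + 1) ∧ ∃ h0 : ℕ, ∀ h : ℕ, h0 ≤ h →
      PB (EC R h) (bC h M τ x0) (ArmO (2 * h) r1 r2) ≤ (1 - c) ^ m ∧
      PB (EC R h) (bC h M τ x0) (ArmD (EC R h) (2 * h) r1 r2) ≤ (1 - c) ^ m := by
  have hM := hc.M0
  have hr1 : 0 < r1 := lt_of_lt_of_le (Nat.mul_pos hC0 hM) h1
  obtain ⟨m, hm1, hm2⟩ := exists_scales (q := 4 * K) (by omega) hr1 h12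
  refine ⟨m, hm2, ?_⟩
  have hex : ∀ a : ℕ, ∃ h0 : ℕ, r1 ≤ a → 2 * K * a ≤ r2 → ∀ h : ℕ, h0 ≤ h →
      RingAt (EC R h ∩ An 0 (a * (2 * h)) (K * a * (2 * h))) (bC h M τ x0) (a * (2 * h))
        (K * a * (2 * h)) c := by
    intro a
    by_cases ha : r1 ≤ a ∧ 2 * K * a ≤ r2
    · obtain ⟨h0, hh0⟩ := hr a (h1.trans ha.1) ha.2
      exact ⟨h0, fun _ _ => hh0⟩
    · exact ⟨0, fun h h' => absurd ⟨h, h'⟩ ha⟩
  choose H hH using hex
  refine ⟨(range (r2 + 1)).sup H + 2, fun h hh => ?_⟩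
  have hh0 : 0 < h := by omega
  have hnn : (0 : ℤ) < 2 * (h : ℤ) := by positivity
  have hodd : ∀ e ∈ EC R h, (e.1 + e.2) % 2 = 1 := fun e he => ((mem_TL hnn).1 he).1
  have hsep : ∀ a a' : ℕ, r1 ≤ a → 4 * K * a ≤ a' → a' ≤ r2 →
      Sep (bC h M τ x0) (EC R h ∩ An 0 (a * (2 * h)) (K * a * (2 * h)))
        (EC R h ∩ An 0 (a' * (2 * h)) (K * a' * (2 * h))) := fun a a' ha haa _ =>
    sep_An hc (by omega) hh0 ((Nat.le_mul_of_pos_left M hC0).trans (h1.trans ha)) haa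
  have hring : ∀ a : ℕ, r1 ≤ a → 2 * K * a ≤ r2 →
      RingAt (EC R h ∩ An 0 (a * (2 * h)) (K * a * (2 * h))) (bC h M τ x0) (a * (2 * h))
        (K * a * (2 * h)) c := by
    intro a ha ha2
    have h3 : a ≤ r2 := by nlinarith
    have h4 := le_sup (f := H) (mem_range.2 (show a < r2 + 1 by omega))
    exact hH a ha ha2 h (by omega)
  exact arms_abs (E := EC R h) (b := bC h M τ x0) (n := 2 * (h : ℤ)) (K := K) (c := c) (m := m)
    hodd (by omega) hK hr1 hm1 hsep hring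
    (A := ArmO (2 * h) r1 r2) (B := ArmD (EC R h) (2 * h) r1 r2)
    (fun ω _ hA s t hs ht => armO_OA hA hs ht) (fun ω _ hA s t hs ht => armD_OA hA hs ht)

lemma RingAt.mono_c {β : Type*} [DecidableEq β] {F : Finset (ℤ × ℤ)} {b : ℤ × ℤ → β} {s t : ℤ}
    {c c' : ℝ} (h : RingAt F b s t c) (hc : c' ≤ c) : RingAt F b s t c' :=
  ⟨h.1.trans (by linarith), h.2.trans (by linarith)⟩

lemma rpow_mono_exp {r1 r2 : ℕ} (h1 : 0 < r1) (h : r1 ≤ r2) {e e' : ℝ} (he : e' ≤ e) :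
    ((r1 : ℝ) / r2) ^ e ≤ ((r1 : ℝ) / r2) ^ e' := by
  have r1p : (0 : ℝ) < r1 := by exact_mod_cast h1
  have r2p : (0 : ℝ) < r2 := by exact_mod_cast (lt_of_lt_of_le h1 h)
  have : (r1 : ℝ) / r2 ≤ 1 := by
    rw [div_le_one r2p]
    exact_mod_cast h
  exact Real.rpow_le_rpow_of_exponent_ge (by positivity) this he

/-- the bound for one chain in the final form -/
theorem arm_final {K D : ℕ} {c : ℝ} (hK : 1 < K) (hc0 : 0 < c) (hc1 : c < 1) {R M τ : ℕ} {x0 : ℤ}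
    (hc : ChOk R M τ x0) {r1 r2 : ℕ} (h1 : (D + 1) * M ≤ r1) (h12 : r1 ≤ r2)
    {C e : ℝ} (hC : (1 - c)⁻¹ ≤ C) (he : e ≤ -Real.log (1 - c) / Real.log ((4 * K : ℕ) : ℝ))
    (hr : ∀ a : ℕ, (D + 1) * M ≤ a → 2 * K * a ≤ r2 → ∃ h0 : ℕ, ∀ h : ℕ, h0 ≤ h →
      RingAt (EC R h ∩ An 0 (a * (2 * h)) (K * a * (2 * h))) (bC h M τ x0) (a * (2 * h))
        (K * a * (2 * h)) c) :
    ∃ h0 : ℕ, ∀ h : ℕ, h0 ≤ h →
      PB (EC R h) (bC h M τ x0) (ArmO (2 * h) r1 r2) ≤ C * ((r1 : ℝ) / r2) ^ e ∧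
      PB (EC R h) (bC h M τ x0) (ArmD (EC R h) (2 * h) r1 r2) ≤ C * ((r1 : ℝ) / r2) ^ e := by
  obtain ⟨m, hm, h0, hh⟩ := arms_of_rings hc hK (Nat.succ_pos D) h1 h12 hr
  have hr1 : 0 < r1 := lt_of_lt_of_le (Nat.mul_pos (Nat.succ_pos D) hc.M0) h1
  have h3 := pow_le_rpow (q := 4 * K) hc0 hc1 (by omega) hr1 (lt_of_lt_of_le hr1 h12) hm
  have h4 := rpow_mono_exp hr1 h12 he
  have hcp : 0 < 1 - c := by linarith
  have h5 : (0 : ℝ) ≤ ((r1 : ℝ) / r2) ^ e := by positivity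
  have h6 : (1 - c) ^ m ≤ C * ((r1 : ℝ) / r2) ^ e :=
    h3.trans (mul_le_mul hC h4 (by positivity) (le_trans (by positivity) hC))
  exact ⟨h0, fun h hh' => ⟨(hh h hh').1.trans h6, (hh h hh').2.trans h6⟩⟩

/-- **(RS) from one ring** around the tip and one ring around an interior point. -/
theorem RS_of_ring (h1 : ∃ (K C0 : ℕ) (c : ℝ), 1 < K ∧ 0 < c ∧ RingT K C0 c)
    (h2 : ∃ (K C0 : ℕ) (c : ℝ), 1 < K ∧ 0 < c ∧ RingS K C0 c) :
    ∃ (C0 : ℕ) (C c : ℝ), 0 < c ∧ RS C0 C c := by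
  obtain ⟨K1, D1, c1, hK1, hc1, H1⟩ := h1
  obtain ⟨K2, D2, c2, hK2, hc2, H2⟩ := h2
  set c := min (1 / 2) (min c1 c2) with hc
  have hc0 : 0 < c := by
    rw [hc]; positivity
  have hcl : c < 1 := lt_of_le_of_lt (min_le_left _ _) (by norm_num)
  have hcc1 : c ≤ c1 := (min_le_right _ _).trans (min_le_left _ _)
  have hcc2 : c ≤ c2 := (min_le_right _ _).trans (min_le_right _ _)
  set D := max D1 D2 with hD
  set e := min (-Real.log (1 - c) / Real.log ((4 * K1 : ℕ) : ℝ))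
    (-Real.log (1 - c) / Real.log ((4 * K2 : ℕ) : ℝ)) with he
  have hepos : ∀ K : ℕ, 1 < K → 0 < -Real.log (1 - c) / Real.log ((4 * K : ℕ) : ℝ) := by
    intro K hK
    have h3 : Real.log (1 - c) < 0 := Real.log_neg (by linarith) (by linarith)
    have h4 : 0 < Real.log ((4 * K : ℕ) : ℝ) := Real.log_pos (by
      have : (1 : ℕ) < 4 * K := by omega
      exact_mod_cast this)
    exact div_pos (by linarith) h4
  refine ⟨D + 1, (1 - c)⁻¹, e, lt_min (hepos K1 hK1) (hepos K2 hK2), ?_⟩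
  intro R M τ x0 hM hτ hdvd hx0 hxR hthin r1 r2 hr1 h12 h2R hx
  have hOk : ChOk R M τ x0 := ⟨hM, hτ, hdvd, hx0, hxR, hthin⟩
  rcases hx with hx | hx
  · subst hx
    refine arm_final (D := D) hK1 hc0 hcl hOk hr1 h12 le_rfl (min_le_left _ _) ?_
    intro a ha h3
    obtain ⟨h0, hh⟩ := H1 R M τ hOk a (le_trans (Nat.mul_le_mul_right _ (by omega)) ha)
      (h3.trans h2R)
    exact ⟨h0, fun h hh' => (hh h hh').mono_c hcc1⟩
  · refine arm_final (D := D) hK2 hc0 hcl hOk hr1 h12 le_rfl (min_le_right _ _) ?_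
    intro a ha h3
    obtain ⟨h0, hh⟩ := H2 R M τ x0 hOk a (le_trans (Nat.mul_le_mul_right _ (by omega)) ha)
      (h3.trans h2R) (by
        have : ((2 * K2 * a : ℕ) : ℤ) ≤ r2 := by exact_mod_cast h3
        push_cast at this
        omega)
    exact ⟨h0, fun h hh' => (hh h hh').mono_c hcc2⟩

end Pool.Agent.H67.W
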