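import Mathlib
import Pool.Agent.H67.W.RS
import Pool.Agent.H91.W.TipSt
import Pool.Agent.H51.W.RSf

set_option autoImplicit false

/-! # Route W, E10: one-arm bounds through fine chains of plates (`RS`), unconditional -/

namespace Pool.Agent.H67.W

open Pool.Agent.H6.W

/-- **(RS)** holds. -/
theorem rs_E10 : ∃ (C0 : ℕ) (C c : ℝ), 0 < c ∧ RS C0 C c :=
  RS_of_ring Pool.Agent.H91.W.ringT_E10 Pool.Agent.H51.W.ringS_E10

end Pool.Agent.H67.W
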