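import Mathlib
import Pool.Agent.H67.W.RS
import Pool.Agent.H91.W.TipRing

set_option autoImplicit false
open Finset

/-! # Route W, E10: separated annuli have different plates, any block map at tile level -/

namespace Pool.Agent.H67.W

open Pool.Agent.H75.Perc hiding WL CT hh EE sh PB
open Pool.Agent.H75.TwoArm Pool.Agent.H75.Four Pool.Agent.H69.Q1 Pool.Agent.Q1
open Pool.Agent.H60.Q1 Pool.Agent.H20.Q1 Pool.Agent.H33.Q1
open Pool.Agent.H58.W Pool.Agent.H50.W Pool.Agent.H98.W Pool.Agent.H6.W Pool.Agent.H91.W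

/-- **Separation**: two labels of one block have columns at distance less than `W` and rows of absolute
value at most `W`; annuli with `W ≤ t`, `4 t ≤ s'`. -/
theorem sep_tile {β : Type*} {E : Finset (ℤ × ℤ)} {b : ℤ × ℤ → β} {W : ℤ}
    (hE : ∀ e ∈ E, (e.1 + e.2) % 2 = 1)
    (hb : ∀ e ∈ E, ∀ e' ∈ E, b e = b e' → e = e' ∨ (|tX e - tX e'| < W ∧ |tY e'| ≤ W))
    {s t s' t' : ℤ} (hW : W ≤ t) (h4 : 4 * t ≤ s') :
    Sep b (E ∩ An 0 s t) (E ∩ An 0 s' t') := by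
  intro l hl l' hl' heq
  obtain ⟨h1, h2⟩ := mem_inter.1 hl
  obtain ⟨h3, h5⟩ := mem_inter.1 hl'
  obtain ⟨h6, -⟩ := mem_sdiff.1 h2
  obtain ⟨-, h7⟩ := mem_sdiff.1 h5
  rw [mem_Bx] at h6 h7
  simp only [Prod.fst_zero, Prod.snd_zero, zero_sub, zero_add] at h6 h7
  rcases hb l h1 l' h3 heq with h8 | ⟨h8, h9⟩
  · subst h8
    omega
  · have o1 := hE l h1
    have o2 := hE l' h3
    rw [abs_lt] at h8
    rw [abs_le] at h9
    unfold tX at h8
    unfold tY at h9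
    omega

/-- labels of one block of the wedge chain with two thicknesses -/
theorem bt2_block {Xo W t1 t2 s D : ℤ} (hW : 0 < W) {e e' : ℤ × ℤ}
    (h1 : chT Xo W t1 s (tX e') ≤ D) (h2 : chT Xo W t2 s (tX e') ≤ D)
    (h : bt2 Xo W t1 t2 s e = bt2 Xo W t1 t2 s e') :
    e = e' ∨ (|tX e - tX e'| < W ∧ |tY e'| ≤ D ∧ |tY e| ≤ D) := by
  unfold bt2 at h
  split_ifs at h with h3 h4
  · right
    have h5 : (Xo - 1 - tX e) / W = (Xo - 1 - tX e') / W := Sum.inr_injective h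
    have a1 := Int.ediv_mul_le (Xo - 1 - tX e) hW.ne'
    have a2 := Int.lt_ediv_add_one_mul_self (Xo - 1 - tX e) hW
    have a3 := Int.ediv_mul_le (Xo - 1 - tX e') hW.ne'
    have a4 := Int.lt_ediv_add_one_mul_self (Xo - 1 - tX e') hW
    have h6 : ∀ t, chT Xo W t s (tX e) = chT Xo W t s (tX e') := by
      intro t
      rw [chT_lt h3.1, chT_lt h4.1, h5]
    have h7 := h3.2
    rw [h6, h6] at h7
    rw [h5] at a1 a2
    rw [abs_lt, abs_le, abs_le]
    exact ⟨⟨by linarith, by linarith⟩, ⟨by linarith [h4.2.1], by linarith [h4.2.2]⟩,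
      by linarith [h7.1], by linarith [h7.2]⟩
  · exact Or.inl (Sum.inl_injective h)

/-- **the rings of a wedge chain have different plates** (`W` = length of the plates) -/
theorem sep_bt2 {Xo W t1 t2 s : ℤ} {E : Finset (ℤ × ℤ)} (hW : 0 < W)
    (hE : ∀ e ∈ E, (e.1 + e.2) % 2 = 1)
    (hT : ∀ e ∈ E, chT Xo W t1 s (tX e) ≤ W ∧ chT Xo W t2 s (tX e) ≤ W)
    {r r' q q' : ℤ} (h1 : W ≤ r') (h4 : 4 * r' ≤ q) :
    Sep (bt2 Xo W t1 t2 s) (E ∩ An 0 r r') (E ∩ An 0 q q') :=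
  sep_tile hE (fun _ _ e' he' h => (bt2_block hW (hT e' he').1 (hT e' he').2 h).imp_right
    fun h => ⟨h.1, h.2.1⟩) h1 h4

end Pool.Agent.H67.W
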