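import Mathlib
import Pool.Agent.H67.W.SepT
import Pool.Agent.H91.W.TipSt

set_option autoImplicit false
open Finset

/-! # Route W, E10 / J7: arms around the tip of a wedge chain with two thicknesses

`tip_arms` : in any coin model whose blocks are those of `bt2 0 (M n) t1 t2 n` (half thickness `t1` above,
`t2` below, `n = 2 h` tiles per cell), events with an open resp. a dual arm from distance `r1 n` to
distance `r2 n / 2` have probability at most `C (r1 / r2) ^ e`. -/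

namespace Pool.Agent.H67.W

open Pool.Agent.H75.Perc hiding WL CT hh EE sh PB
open Pool.Agent.H75.TwoArm Pool.Agent.H75.Four Pool.Agent.H69.Q1 Pool.Agent.Q1
open Pool.Agent.H60.Q1 Pool.Agent.H20.Q1 Pool.Agent.H33.Q1
open Pool.Agent.H58.W Pool.Agent.H50.W Pool.Agent.H98.W Pool.Agent.H6.W Pool.Agent.H91.W
open Pool.Agent.H99.NC (BR)

/-- thickness at most `M n` in the columns `-R n ≤ x` -/
lemma chT_thin {R M τ : ℕ} (hM : 0 < M) (hth : 64 * ((τ : ℝ) + 2 * R / M) ≤ M) {n t x : ℤ}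
    (hn : 0 < n) (h0 : 0 ≤ t) (ht : t ≤ τ * n) (hx : -(R * n) ≤ x) : chT 0 (M * n) t n x ≤ M * n := by
  have hMi : (0 : ℤ) < M := by exact_mod_cast hM
  have hMr : (0 : ℝ) < M := by exact_mod_cast hM
  have hthi : 64 * (τ : ℤ) * M + 128 * R ≤ M * M := by
    have h1 := mul_le_mul_of_nonneg_right hth hMr.le
    have h2 : 64 * ((τ : ℝ) + 2 * R / M) * M = 64 * τ * M + 128 * R := by
      field_simp
      ring
    rw [h2] at h1
    exact_mod_cast h1
  have hRn : (0 : ℤ) ≤ R * n := by positivity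
  have h3 : (τ : ℤ) * M + R ≤ M * M := by
    have : (0 : ℤ) ≤ (τ : ℤ) * M := by positivity
    have : (0 : ℤ) ≤ (R : ℤ) := by positivity
    linarith
  refine chT_le (X := -(R * n)) (by positivity) h0 hn.le (by linarith) ?_ hx
  have h4 : t * (M * n) ≤ τ * n * (M * n) := mul_le_mul_of_nonneg_right ht (by positivity)
  have h5 : ((τ : ℤ) * M + R) * (n * n) ≤ M * M * (n * n) :=
    mul_le_mul_of_nonneg_right h3 (by positivity)
  nlinarith

/-- **Arms around the tip, two thicknesses.** -/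
theorem tip_arms : ∃ C e : ℝ, 0 < e ∧ ∀ (R M τ h : ℕ), 0 < M → 0 < τ →
    64 * ((τ : ℝ) + 2 * R / M) ≤ M → 2 ≤ h → ∀ t1 t2 : ℤ, 1 ≤ t1 → t1 ≤ τ * (2 * h) → 1 ≤ t2 →
    t2 ≤ τ * (2 * h) → ∀ E : Finset (ℤ × ℤ), (∀ e ∈ E, (e.1 + e.2) % 2 = 1) →
    ∀ {β : Type} [DecidableEq β] (b : ℤ × ℤ → β),
    (∀ e ∈ E, ∀ e' ∈ E, b e = b e' ↔
      bt2 0 (M * (2 * h)) t1 t2 (2 * h) e = bt2 0 (M * (2 * h)) t1 t2 (2 * h) e') →
    ∀ r1 r2 : ℕ, 4 * M ≤ r1 → r1 ≤ r2 → r2 ≤ R → An 0 (r1 * (2 * h)) (r2 * h) ⊆ E →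
    ∀ A B : Finset (ℤ × ℤ) → Prop,
    (∀ ω, ω ⊆ E → A ω → ∀ s t : ℤ, r1 * (2 * h) ≤ s → 2 * t ≤ r2 * (2 * h) → OA 0 s t ω) →
    (∀ ω, ω ⊆ E → B ω → ∀ s t : ℤ, r1 * (2 * h) ≤ s → 2 * t ≤ r2 * (2 * h) → OA 0 s t (du E ω)) →
    PB E b A ≤ C * ((r1 : ℝ) / r2) ^ e ∧ PB E b B ≤ C * ((r1 : ℝ) / r2) ^ e := by
  obtain ⟨c0, hc0, hring⟩ := tip_pair
  set c := min (1 / 2) c0 with hc
  have hcp : 0 < c := by rw [hc]; positivity
  have hc1 : c < 1 := lt_of_le_of_lt (min_le_left _ _) (by norm_num)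
  refine ⟨(1 - c)⁻¹, -Real.log (1 - c) / Real.log ((4 * 32 : ℕ) : ℝ), ?_, ?_⟩
  · have h3 : Real.log (1 - c) < 0 := Real.log_neg (by linarith) (by linarith)
    have h4 : 0 < Real.log ((4 * 32 : ℕ) : ℝ) := Real.log_pos (by norm_num)
    exact div_pos (by linarith) h4
  intro R M τ h hM hτ hth hh t1 t2 h1 h1' h2 h2' E hE β _ b hb r1 r2 hr1 h12 h2R hEr A B hA hB
  have hn : (4 : ℤ) ≤ 2 * (h : ℤ) := by omega
  have hr1p : 0 < r1 := by omega
  have hMn : (0 : ℤ) < M * (2 * h) := by positivity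
  refine arms_abs' (n := 2 * (h : ℤ)) (K := 32) hE hn (by norm_num) hcp hc1 hr1p h12 ?_ ?_ hA hB
  · intro a a' ha haa ha'
    -- separation
    have hM1 : (M : ℤ) * (2 * h) ≤ ((32 : ℕ) : ℤ) * a * (2 * h) := by
      have : (M : ℤ) ≤ 32 * a := by omega
      push_cast
      exact mul_le_mul_of_nonneg_right this (by positivity)
    have h4 : 4 * (((32 : ℕ) : ℤ) * a * (2 * h)) ≤ a' * (2 * h) := by
      have : (4 * 32 * a : ℤ) ≤ a' := by exact_mod_cast haa
      have := mul_le_mul_of_nonneg_right this (show (0 : ℤ) ≤ 2 * h by positivity)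
      push_cast
      linarith
    set n : ℤ := 2 * (h : ℤ) with hnn
    have hRn : (a' : ℤ) * n ≤ R * n :=
      mul_le_mul_of_nonneg_right (by exact_mod_cast ha'.trans h2R) (by positivity)
    -- only the columns of the first annulus matter
    intro l hl l' hl' heq
    obtain ⟨g1, g2⟩ := mem_inter.1 hl
    obtain ⟨g3, g4⟩ := mem_inter.1 hl'
    have g5 : bt2 0 (M * n) t1 t2 n l' = bt2 0 (M * n) t1 t2 n l :=
      ((hb l g1 l' g3).1 heq).symm
    obtain ⟨k1, -⟩ := mem_sdiff.1 g2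
    obtain ⟨-, k2⟩ := mem_sdiff.1 g4
    rw [mem_Bx] at k1 k2
    simp only [Prod.fst_zero, Prod.snd_zero, zero_sub, zero_add] at k1 k2
    have k3 : 4 * (((32 : ℕ) : ℤ) * a * n) ≤ R * n := h4.trans hRn
    generalize hU : ((32 : ℕ) : ℤ) * a * n = U at *
    have hx : -(R * n) ≤ tX l := by unfold tX; omega
    have d1 := chT_thin (n := n) hM hth (by omega) (show 0 ≤ t1 by omega) h1' hx
    have d2 := chT_thin (n := n) hM hth (by omega) (show 0 ≤ t2 by omega) h2' hx
    have o1 := hE l g1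
    have o2 := hE l' g3
    rcases bt2_block hMn d1 d2 g5 with g6 | ⟨g6, -, g8⟩
    · subst g6
      omega
    · rw [abs_lt] at g6
      rw [abs_le] at g8
      unfold tX at g6
      unfold tY at g8
      omega
  · intro a ha ha2
    obtain ⟨N, L, τ', m, hN⟩ := tip_nums (a := a) hM hτ hth (by omega) (by omega) hh
    have H0 := hN 0 t1 t2 le_rfl (by norm_num) h1 h1' h2 h2'
    have H1 := hN 1 t1 t2 (by norm_num) le_rfl h1 h1' h2 h2'
    set n : ℤ := 2 * (h : ℤ) with hnn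
    have hU : ((32 : ℕ) : ℤ) * a * n = 32 * (a * n) := by push_cast; ring
    have hur : 32 * (a * n) ≤ r2 * h := by
      have : (64 * a : ℤ) ≤ r2 := by
        have : 64 * a ≤ r2 := by omega
        exact_mod_cast this
      have := mul_le_mul_of_nonneg_right this (show (0 : ℤ) ≤ h by positivity)
      rw [hnn]
      linarith
    have hr1n : (r1 : ℤ) * n ≤ a * n := mul_le_mul_of_nonneg_right (by exact_mod_cast ha) (by omega)
    rw [hU]
    set u : ℤ := a * n with hu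
    have u1 : 16 ≤ u := by
      have := H0.num.hL
      have := H0.num.hLN
      have := H0.num.hNu
      omega
    have hF : BR (0, 0) (24 * u) \ BR (0, 0) (8 * u) ⊆ E ∩ An 0 u (32 * u) := by
      intro e he
      rw [mem_sdiff, mem_BR, mem_BR] at he
      simp only at he
      rw [mem_inter]
      refine ⟨hEr ?_, ?_⟩
      · rw [mem_sdiff, mem_Bx, mem_Bx]
        simp only [Prod.fst_zero, Prod.snd_zero]
        omega
      · rw [mem_sdiff, mem_Bx, mem_Bx]
        simp only [Prod.fst_zero, Prod.snd_zero]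
        omega
    have h5 := hring 0 (M * n) t1 t2 n N L τ' u m H0 (by rw [zero_add]; exact H1)
      (E ∩ An 0 u (32 * u)) (fun e he => hE e (mem_inter.1 he).1) hF b
      (fun e he e' he' => hb e (mem_inter.1 he).1 e' (mem_inter.1 he').1) (u + 1) (32 * u - 1)
      (by omega) (by omega)
    have h6 : c ≤ c0 := min_le_right _ _
    exact ⟨h5.1.trans (by linarith), h5.2.trans (by linarith)⟩

end Pool.Agent.H67.W
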