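import Mathlib
import Pool.Agent.H67.W.TipArm
import Pool.Agent.H57.W.NNDef
import Pool.Agent.H71.W.JGeo

set_option autoImplicit false
open Finset

/-! # C6, J7 (`YNear`), N3: the numbers and the probability of the annulus

Inner radius `rI = ⌈5 σ H⌉` cells, `rhoN = 2 rI n - 6`, outer radius `R0N = H n - 3` (label coordinates,
`n = 2 h`). `nn_of` : the structure `NN` of 57; `ann_bound` : the event of the annulus has probability at most
`C σ ^ e`. -/

namespace Pool.Agent.H67.W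

open Pool.Agent.H75.Perc hiding WL CT hh EE sh PB
open Pool.Agent.H75.TwoArm Pool.Agent.H75.Four Pool.Agent.H69.Q1 Pool.Agent.Q1
open Pool.Agent.Q1.M4 (lat Cell)
open Pool.Agent.H60.Q1 Pool.Agent.H20.Q1
open Pool.Agent.H33.Q1 hiding cT
open Pool.Agent.H58.W Pool.Agent.H50.W Pool.Agent.H98.W Pool.Agent.H6.W Pool.Agent.H91.W
open Pool.Agent.H61.W Pool.Agent.H57.W
open Pool.Agent.H21.W (nP X_eq)
open Pool.Agent.H71.W (H_pos M_pos one_le_dH d_pos nP_real thin)

/-- inner radius in cells -/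
noncomputable def rI (σ : ℝ) (b : JBox) : ℕ := ⌈5 * σ * b.H⌉₊

/-- inner radius in label coordinates -/
noncomputable def rhoN (σ : ℝ) (b : JBox) (h : ℕ) : ℤ := 2 * (rI σ b : ℤ) * (2 * h) - 6

/-- outer radius in label coordinates -/
def R0N (b : JBox) (h : ℕ) : ℤ := b.H * (2 * h) - 3

variable {b : JBox} {δ σ : ℝ}

lemma sH_ge (hb : b.Ok δ σ) (hδ : 100 * δ ≤ σ) : 100 ≤ σ * b.H := by
  have h1 := one_le_dH hb
  have h2 := mul_le_mul_of_nonneg_right hδ (H_pos hb).le
  linarith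

lemma rI_ge : 5 * σ * b.H ≤ rI σ b := Nat.le_ceil _

lemma rI_le (hb : b.Ok δ σ) (hδ : 100 * δ ≤ σ) : (rI σ b : ℝ) ≤ 6 * (σ * b.H) := by
  have h1 := sH_ge hb hδ
  have h2 := Nat.ceil_lt_add_one (show 0 ≤ 5 * σ * b.H by linarith)
  unfold rI
  linarith

lemma H_le_X (hb : b.Ok δ σ) (hd : δ ≤ 1) : b.H ≤ b.X := by
  have h1 := hb.X_ge
  have h2 : δ * b.X ≤ 1 * b.X := mul_le_mul_of_nonneg_right hd (by positivity)
  have h3 : (b.H : ℝ) ≤ b.X := by linarith
  exact_mod_cast h3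

lemma box_mem (hb : b.Ok δ σ) (hd : δ ≤ 1) {h : ℕ} (hh : 0 < h) {e : ℤ × ℤ}
    (ho : (e.1 + e.2) % 2 = 1) (h1 : |e.1| ≤ R0N b h) (h2 : |e.2| ≤ R0N b h) : e ∈ b.B h := by
  have hn : (0 : ℤ) < 2 * (h : ℤ) := by positivity
  rw [mem_B hh]
  refine ⟨ho, ?_⟩
  unfold InQ JBox.Q RC
  rw [mem_union]
  left
  rw [tt_eq]
  have hX : (b.H : ℤ) ≤ b.X := by exact_mod_cast H_le_X hb hd
  have hXn : (b.H : ℤ) * (2 * h) ≤ b.X * (2 * h) := mul_le_mul_of_nonneg_right hX hn.le
  unfold R0N at h1 h2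
  rw [abs_le] at h1 h2
  rw [mem_product, mem_Ico, mem_Ico]
  simp only
  rw [Int.le_ediv_iff_mul_le hn, Int.ediv_lt_iff_lt_mul hn, Int.le_ediv_iff_mul_le hn,
    Int.ediv_lt_iff_lt_mul hn, neg_mul, neg_mul]
  unfold tX tY
  omega

theorem nn_of (hb : b.Ok δ σ) (hσ : σ ≤ 1 / 100) (hδ : 100 * δ ≤ σ) {h : ℕ} (hh : 8 ≤ h) {x : ℝ}
    (hx : x ∈ Set.Ioo (-σ) 0) {v : ℤ × ℤ} (hv : ‖lat v‖ ≤ 4 * σ * (2 * h * b.H)) :
    NN b h (gp b (2 * h) x) v (rhoN σ b h) (R0N b h) := by
  have hn : (0 : ℤ) < 2 * (h : ℤ) := by positivity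
  have hH := H_pos hb
  have hMr := M_pos hb
  have hd0 := d_pos hb
  have hsH := sH_ge hb hδ
  have hd : δ ≤ 1 := by linarith
  have hσ0 : 0 < σ := by linarith
  set N : ℝ := 2 * (h : ℝ) with hN
  have hN16 : 16 ≤ N := by
    have : (8 : ℝ) ≤ h := by exact_mod_cast hh
    rw [hN]; linarith
  set S : ℝ := σ * b.H * N with hS
  have hS1 : 1600 ≤ S := by
    rw [hS]
    nlinarith
  have r1 : 10 * S ≤ 2 * (rI σ b : ℝ) * N := by
    have := mul_le_mul_of_nonneg_right (rI_ge (σ := σ) (b := b)) (show 0 ≤ N by linarith)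
    rw [hS]; linarith
  have r2 : 2 * (rI σ b : ℝ) * N ≤ 12 * S := by
    have := mul_le_mul_of_nonneg_right (rI_le hb hδ) (show 0 ≤ N by linarith)
    rw [hS]; linarith
  have hρ : ((rhoN σ b h : ℤ) : ℝ) = 2 * (rI σ b : ℝ) * N - 6 := by
    unfold rhoN
    push_cast
    rw [hN]
  have hR0 : ((R0N b h : ℤ) : ℝ) = b.H * N - 3 := by
    unfold R0N
    push_cast
    rw [hN]
  have hthin : ((b.τ : ℝ) + nP b + 1) * N ≤ S / 50 := by
    have h1 := thin hb
    have h2 := mul_le_mul_of_nonneg_right hδ hH.le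
    have h3 : (b.τ : ℝ) + nP b + 1 ≤ σ * b.H / 50 := by linarith
    have := mul_le_mul_of_nonneg_right h3 (show 0 ≤ N by linarith)
    rw [hS]; linarith
  -- the mark
  set j : ℤ := ⌊-x * b.H / b.M⌋ with hj
  have hxH : 0 ≤ -x * b.H / b.M := by
    have := hx.2
    have : 0 ≤ -x := by linarith
    positivity
  have hj0 : 0 ≤ j := Int.floor_nonneg.2 hxH
  have hg : gp b (2 * h) x = -(j * b.M * (2 * h)) := rfl
  have hgj : (j : ℝ) * b.M ≤ σ * b.H := by
    have h1 : (j : ℝ) ≤ -x * b.H / b.M := Int.floor_le _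
    rw [le_div_iff₀ hMr] at h1
    have h2 : -x * b.H ≤ σ * b.H := mul_le_mul_of_nonneg_right (by linarith [hx.1]) hH.le
    linarith
  have hx1 : -((gp b (2 * h) x : ℤ) : ℝ) ≤ S := by
    rw [hg]
    push_cast
    have := mul_le_mul_of_nonneg_right hgj (show 0 ≤ N by linarith)
    rw [hS, neg_neg, ← hN]
    exact this
  refine ⟨by omega, hb.M0, hb.τ0, ?_, ?_, ?_, ?_, ?_, ?_, ?_, ?_⟩
  · -- moving end
    have h1 : ‖lat v‖ ^ 2 = (v.1 : ℝ) ^ 2 + (v.2 : ℝ) ^ 2 := by
      rw [Complex.sq_norm, Complex.normSq_apply]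
      simp only [lat]
      ring
    have h2 : ‖lat v‖ ≤ 4 * S := by
      rw [hS, hN]
      linarith
    have h3 : |(v.1 : ℝ)| + |(v.2 : ℝ)| ≤ 6 * S := by
      by_contra hc
      push Not at hc
      have a1 := sq_abs (v.1 : ℝ)
      have a2 := sq_abs (v.2 : ℝ)
      have a3 : ‖lat v‖ ^ 2 ≤ (4 * S) ^ 2 := pow_le_pow_left₀ (norm_nonneg _) h2 2
      have a4 : (6 * S) ^ 2 < (|(v.1 : ℝ)| + |(v.2 : ℝ)|) ^ 2 :=
        pow_lt_pow_left₀ hc (by linarith) (by norm_num)
      nlinarith [sq_nonneg (|(v.1 : ℝ)| - |(v.2 : ℝ)|)]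
    have h4 : ((|v.1| + |v.2| + 4 : ℤ) : ℝ) ≤ ((rhoN σ b h : ℤ) : ℝ) := by
      rw [hρ]
      push_cast
      linarith
    exact_mod_cast h4
  · rw [hg]
    have : 0 ≤ j * b.M * (2 * (h : ℤ)) := by positivity
    linarith
  · have h4 : ((-(gp b (2 * h) x) + 4 : ℤ) : ℝ) ≤ ((rhoN σ b h : ℤ) : ℝ) := by
      rw [hρ]
      push_cast
      linarith
    exact_mod_cast h4
  · have h4 : ((rhoN σ b h + 4 : ℤ) : ℝ) < ((R0N b h : ℤ) : ℝ) := by
      rw [hR0]
      push_cast
      rw [hρ]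
      have : 100 * S ≤ b.H * N := by
        have := mul_le_mul_of_nonneg_right hσ (show 0 ≤ b.H * N by positivity)
        rw [hS]
        linarith
      linarith
    exact_mod_cast h4
  · intro e ho h1 h2
    exact box_mem hb hd (by omega) ho h1 h2
  · -- the chunk
    intro e he
    unfold JBox.Pl at he
    rw [mem_TL hn] at he
    obtain ⟨ho, he⟩ := he
    unfold JBox.Pc at he
    rw [mem_biUnion] at he
    obtain ⟨i, hi, he⟩ := he
    unfold RC ct at he
    rw [tt_eq, mem_product, mem_Ico, mem_Ico] at he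
    simp only at he
    obtain ⟨⟨g1, g2⟩, g3, g4⟩ := he
    rw [Int.le_ediv_iff_mul_le hn] at g1 g3
    rw [Int.ediv_lt_iff_lt_mul hn] at g2 g4
    have hi' : (i : ℤ) + 1 ≤ b.m := by
      have := mem_range.1 hi
      omega
    have hmn : (b.m : ℝ) ≤ nP b := by
      have h1 := hb.len
      have h2 : σ * b.H ≤ b.X := by
        have h3 : (b.H : ℝ) ≤ b.X := by exact_mod_cast H_le_X hb hd
        have h4 : σ * b.H ≤ 1 * b.H := mul_le_mul_of_nonneg_right (by linarith) hH.le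
        linarith
      have h3 : (b.X : ℝ) = nP b * b.M := by exact_mod_cast X_eq hb
      rw [h3, ← h1] at h2
      exact le_of_mul_le_mul_right h2 hMr
    have k1 : -((b.m : ℤ) * b.M * (2 * h)) ≤ tX e := by
      have h1 : ((i : ℤ) + 1) * b.M * (2 * h) ≤ b.m * b.M * (2 * h) := by
        apply mul_le_mul_of_nonneg_right _ hn.le
        exact mul_le_mul_of_nonneg_right hi' (by positivity)
      have h2 : -(((i : ℤ) + 1) * b.M) * (2 * h) = -(((i : ℤ) + 1) * b.M * (2 * h)) := by ring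
      linarith
    have k2 : tX e < 0 := by
      have h1 : 0 ≤ (i : ℤ) * b.M * (2 * h) := by positivity
      have h2 : -((i : ℤ) * b.M) * (2 * h) = -((i : ℤ) * b.M * (2 * h)) := by ring
      linarith
    have k3 : -(((b.τ : ℤ) + b.m) * (2 * h)) ≤ tY e := by
      have h1 : ((b.τ : ℤ) + i) * (2 * h) ≤ (b.τ + b.m) * (2 * h) :=
        mul_le_mul_of_nonneg_right (by omega) hn.le
      have h2 : -((b.τ : ℤ) + i) * (2 * h) = -(((b.τ : ℤ) + i) * (2 * h)) := by ring
      linarith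
    have k4 : tY e < ((b.τ : ℤ) + b.m) * (2 * h) := by
      have h1 : ((b.τ : ℤ) + i) * (2 * h) ≤ (b.τ + b.m) * (2 * h) :=
        mul_le_mul_of_nonneg_right (by omega) hn.le
      linarith
    have m1 : ((b.m : ℤ) * b.M * (2 * h) : ℤ) + (((b.τ : ℤ) + b.m) * (2 * h) : ℤ) + 4 ≤
        rhoN σ b h := by
      have h4 : (((b.m : ℤ) * b.M * (2 * h) + ((b.τ : ℤ) + b.m) * (2 * h) + 4 : ℤ) : ℝ) ≤
          ((rhoN σ b h : ℤ) : ℝ) := by
        rw [hρ]
        push_cast
        rw [← hN]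
        have h5 : (b.m : ℝ) * b.M * N = S := by rw [hS, hb.len]
        have h6 : ((b.τ : ℝ) + b.m) * N ≤ ((b.τ : ℝ) + nP b + 1) * N :=
          mul_le_mul_of_nonneg_right (by linarith) (by linarith)
        linarith
      exact_mod_cast h4
    generalize (b.m : ℤ) * b.M * (2 * h) = A at *
    generalize ((b.τ : ℤ) + b.m) * (2 * h) = B at *
    unfold tX at k1 k2
    unfold tY at k3 k4
    constructor
    · rw [← le_sub_iff_add_le, abs_le]
      omega
    · rw [← le_sub_iff_add_le, abs_le]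
      omega
  · -- the plates of the annulus
    intro e he hC hfar
    have hMi : (0 : ℤ) < b.M := by exact_mod_cast hb.M0
    have hW : (0 : ℤ) < b.M * (2 * (h : ℤ)) := by positivity
    have hBo := (mem_B (by omega)).1 he
    rw [inC_iff (by omega) hb.M0 he] at hC
    obtain ⟨c1, c2, c3⟩ := hC
    rw [tt_eq]
    simp only
    have hX1 : -((nP b : ℤ) * (b.M * (2 * h))) ≤ tX e := by
      have g1 : -(b.X : ℤ) ≤ (tt e).1 / (2 * h) := by
        have h1 := hBo.2
        unfold InQ JBox.Q RC at h1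
        rw [mem_union, mem_biUnion, mem_product, mem_Ico, mem_Ico] at h1
        rcases h1 with h1 | ⟨i, hi, h1⟩
        · exact h1.1.1
        · have h2 := (hb.st_lo i (mem_range.1 hi)).1
          rw [mem_union, mem_product, mem_product, mem_Ico, mem_Ico, mem_Ico] at h1
          rcases h1 with h1 | h1
          · have := h1.1.1
            simp only at this
            omega
          · have := h1.1.1
            simp only at this
            omega
      rw [tt_eq] at g1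
      simp only at g1
      rw [Int.le_ediv_iff_mul_le hn] at g1
      have h3 : (b.X : ℤ) = nP b * b.M := by exact_mod_cast X_eq hb
      rw [h3] at g1
      linarith
    have hcT : cT 0 b.M b.τ (2 * h) (tX e) ≤ ((b.τ : ℤ) + nP b) * (2 * h) := by
      have hc : cT 0 b.M b.τ (2 * h) (tX e) =
          chT 0 (b.M * (2 * (h : ℤ))) (b.τ * (2 * (h : ℤ))) (2 * h) (tX e) := by
        unfold cT
        rw [zero_mul]
      rw [hc, chT_lt c1]
      have h1 : (0 - 1 - tX e) / (b.M * (2 * (h : ℤ))) ≤ nP b := by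
        apply Int.ediv_le_of_le_mul hW
        linarith
      have h2 : 2 * (h : ℤ) * ((0 - 1 - tX e) / (b.M * (2 * (h : ℤ)))) ≤ 2 * (h : ℤ) * nP b :=
        mul_le_mul_of_nonneg_left h1 hn.le
      linarith
    have m1 : (((b.τ : ℤ) + nP b) * (2 * h) : ℤ) + 4 - gp b (2 * h) x ≤ rhoN σ b h := by
      have h4 : ((((b.τ : ℤ) + nP b) * (2 * h) + 4 - gp b (2 * h) x : ℤ) : ℝ) ≤
          ((rhoN σ b h : ℤ) : ℝ) := by
        rw [hρ]
        push_cast
        rw [← hN]
        have h6 : ((b.τ : ℝ) + nP b) * N ≤ ((b.τ : ℝ) + nP b + 1) * N :=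
          mul_le_mul_of_nonneg_right (by linarith) (by linarith)
        linarith
      exact_mod_cast h4
    have ho := hBo.1
    generalize ((b.τ : ℤ) + nP b) * (2 * h) = B at *
    generalize cT 0 b.M b.τ (2 * h) (tX e) = T at *
    generalize rhoN σ b h = ρ at *
    unfold tY at c2 c3
    rcases hfar with hf | hf
    · rw [le_abs] at hf
      unfold tX at c1 ⊢
      omega
    · rw [le_abs] at hf
      unfold tX at c1 ⊢
      omega
  · unfold R0N
    linarith

/-- **The probability of the annulus.** -/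
theorem ann_bound : ∃ C e : ℝ, 0 ≤ C ∧ 0 < e ∧ ∀ (b : JBox) (δ σ : ℝ), b.Ok δ σ → σ ≤ 1 / 100 →
    100 * δ ≤ σ → ∀ h : ℕ, 8 ≤ h → ∀ (s : Bool) (r0 : ℤ),
    PB ((Oa b h s r0 (rhoN σ b h) (R0N b h)).image (dn s r0))
      (bt2 0 (b.M * (2 * (h : ℤ))) (b.τ * (2 * (h : ℤ)) - 1) (b.τ * (2 * (h : ℤ))) (2 * h))
      (fun ω => OA 0 (rhoN σ b h / 2 + 2) (R0N b h / 2 - 3)
        (du ((Oa b h s r0 (rhoN σ b h) (R0N b h)).image (dn s r0)) ω)) ≤ C * σ ^ e := by
  obtain ⟨C, e, he, H⟩ := tip_arms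
  refine ⟨max C 0 * 12 ^ e, e, by positivity, he, ?_⟩
  intro b δ σ hb hσ hδ h hh s r0
  have hn : (0 : ℤ) < 2 * (h : ℤ) := by positivity
  have hH := H_pos hb
  have hMr := M_pos hb
  have hd0 := d_pos hb
  have hsH := sH_ge hb hδ
  have hd : δ ≤ 1 := by linarith
  have hσ0 : 0 < σ := by linarith
  have hH1 : 10000 ≤ (b.H : ℝ) := by
    have := mul_le_mul_of_nonneg_right hσ hH.le
    linarith
  have hH1' : 10000 ≤ b.H := by exact_mod_cast hH1
  have q1 := rI_ge (σ := σ) (b := b)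
  have q2 := rI_le hb hδ
  have q3 : (rI σ b : ℝ) ≤ b.H / 10 := by
    have := mul_le_mul_of_nonneg_right hσ hH.le
    linarith
  have hthin : 64 * ((b.τ : ℝ) + 2 * b.H / b.M) ≤ b.M := by
    have h1 := hb.τ_le
    have h2 : 2 * (b.H : ℝ) / b.M ≤ b.X / b.M := by
      apply div_le_div_of_nonneg_right _ hMr.le
      have h3 := hb.X_ge
      have h4 : δ * b.X ≤ 1 / 2 * b.X := mul_le_mul_of_nonneg_right (by linarith) (by positivity)
      linarith
    linarith
  have hr1 : 4 * b.M ≤ rI σ b := by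
    have h1 := hb.M_le
    have h2 := mul_le_mul_of_nonneg_right hδ hH.le
    have h3 : 4 * (b.M : ℝ) ≤ rI σ b := by linarith
    exact_mod_cast h3
  have hr12 : rI σ b ≤ b.H - 1 := by
    have h1 : (rI σ b : ℝ) + 1 ≤ b.H := by linarith
    have : rI σ b + 1 ≤ b.H := by exact_mod_cast h1
    omega
  have hτn : (8 : ℤ) ≤ b.τ * (2 * h) := by
    have : (1 : ℤ) ≤ b.τ := by exact_mod_cast hb.τ0
    nlinarith
  set O' := (Oa b h s r0 (rhoN σ b h) (R0N b h)).image (dn s r0) with hO'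
  have hodd : ∀ e ∈ O', (e.1 + e.2) % 2 = 1 := by
    intro e he'
    rw [hO', mem_image] at he'
    obtain ⟨e', h1, rfl⟩ := he'
    exact dn_odd ((mem_B (by omega)).1 (mem_Oa.1 h1).1).1
  have hR : (b.H : ℤ) * (2 * h) = 2 * (b.H * h) := by ring
  have hr : ((b.H - 1 : ℕ) : ℤ) * h = b.H * h - h := by
    have : ((b.H - 1 : ℕ) : ℤ) = b.H - 1 := by
      have := hb.H0
      omega
    rw [this]
    ring
  have hAn : An 0 (rI σ b * (2 * h)) ((b.H - 1 : ℕ) * h) ⊆ O' := by
    intro e' he'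
    rw [mem_sdiff, mem_Bx, mem_Bx] at he'
    simp only [Prod.fst_zero, Prod.snd_zero, zero_sub, zero_add] at he'
    rw [hr] at he'
    rw [hO', mem_image]
    have hρ : rhoN σ b h = 2 * (rI σ b * (2 * h)) - 6 := by unfold rhoN; ring
    have hR0 : R0N b h = 2 * (b.H * h) - 3 := by unfold R0N; rw [hR]
    by_cases hu : (tX e' < 0 ∧ Yr s ≤ tY e') ∨ (0 ≤ tX e' ∧ r0 ≤ tY e')
    · -- above
      have t1 : tX (e'.1 - 1, e'.2 + 1) = tX e' := by unfold tX; simp only; omega
      have t2 : tY (e'.1 - 1, e'.2 + 1) = tY e' + 1 := by unfold tY; simp only; omega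
      have hU : Upr s r0 (e'.1 - 1, e'.2 + 1) := by
        unfold Upr
        rw [t1, t2]
        omega
      refine ⟨(e'.1 - 1, e'.2 + 1), ?_, ?_⟩
      · rw [mem_Oa]
        have b1 : |e'.1 - 1| ≤ R0N b h := by
          rw [hR0, abs_le]
          generalize (rI σ b : ℤ) * (2 * h) = A at *
          generalize (b.H : ℤ) * h = B at *
          omega
        have b2 : |e'.2 + 1| ≤ R0N b h := by
          rw [hR0, abs_le]
          generalize (rI σ b : ℤ) * (2 * h) = A at *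
          generalize (b.H : ℤ) * h = B at *
          omega
        refine ⟨box_mem hb hd (by omega) (by simp only; omega) b1 b2, ?_, ⟨b1, b2⟩, ?_⟩
        · simp only
          rw [hρ, le_abs, le_abs]
          generalize (rI σ b : ℤ) * (2 * h) = A at *
          generalize (b.H : ℤ) * h = B at *
          omega
        · unfold Dlr
          rw [t1, t2]
          omega
      · unfold dn
        rw [if_pos hU]
        refine Prod.ext ?_ ?_ <;> simp only <;> ring
    · have hU : ¬ Upr s r0 e' := by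
        unfold Upr
        omega
      refine ⟨e', ?_, ?_⟩
      · rw [mem_Oa]
        have b1 : |e'.1| ≤ R0N b h := by
          rw [hR0, abs_le]
          generalize (rI σ b : ℤ) * (2 * h) = A at *
          generalize (b.H : ℤ) * h = B at *
          omega
        have b2 : |e'.2| ≤ R0N b h := by
          rw [hR0, abs_le]
          generalize (rI σ b : ℤ) * (2 * h) = A at *
          generalize (b.H : ℤ) * h = B at *
          omega
        refine ⟨box_mem hb hd (by omega) (by omega) b1 b2, ?_, ⟨b1, b2⟩, ?_⟩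
        · rw [hρ, le_abs, le_abs]
          generalize (rI σ b : ℤ) * (2 * h) = A at *
          generalize (b.H : ℤ) * h = B at *
          omega
        · unfold Dlr
          omega
      · unfold dn
        rw [if_neg hU]
  have key := (H b.H b.M b.τ h hb.M0 hb.τ0 hthin (by omega) (b.τ * (2 * (h : ℤ)) - 1)
    (b.τ * (2 * (h : ℤ))) (by omega) (by omega) (by omega) le_rfl O' hodd
    (bt2 0 (b.M * (2 * (h : ℤ))) (b.τ * (2 * (h : ℤ)) - 1) (b.τ * (2 * (h : ℤ))) (2 * h))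
    (fun _ _ _ _ => Iff.rfl) (rI σ b) (b.H - 1) hr1 hr12 (by omega) hAn (fun _ => False)
    (fun ω => OA 0 (rhoN σ b h / 2 + 2) (R0N b h / 2 - 3) (du O' ω))
    (fun _ _ hF => hF.elim) ?_).2
  · refine key.trans ?_
    have hr2 : (b.H : ℝ) / 2 ≤ ((b.H - 1 : ℕ) : ℝ) := by
      rw [Nat.cast_sub (by omega)]
      push_cast
      linarith
    have h1 : (rI σ b : ℝ) / ((b.H - 1 : ℕ) : ℝ) ≤ 12 * σ := by
      rw [div_le_iff₀ (by linarith)]
      have : 12 * σ * (b.H / 2) ≤ 12 * σ * ((b.H - 1 : ℕ) : ℝ) :=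
        mul_le_mul_of_nonneg_left hr2 (by linarith)
      linarith
    have h2 : ((rI σ b : ℝ) / ((b.H - 1 : ℕ) : ℝ)) ^ e ≤ (12 * σ) ^ e :=
      Real.rpow_le_rpow (by positivity) h1 he.le
    rw [Real.mul_rpow (by norm_num) hσ0.le] at h2
    have h3 : (0 : ℝ) ≤ ((rI σ b : ℝ) / ((b.H - 1 : ℕ) : ℝ)) ^ e := by positivity
    calc C * ((rI σ b : ℝ) / ((b.H - 1 : ℕ) : ℝ)) ^ e
        ≤ max C 0 * ((rI σ b : ℝ) / ((b.H - 1 : ℕ) : ℝ)) ^ e :=
          mul_le_mul_of_nonneg_right (le_max_left _ _) h3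
      _ ≤ max C 0 * (12 ^ e * σ ^ e) := mul_le_mul_of_nonneg_left h2 (le_max_right _ _)
      _ = max C 0 * 12 ^ e * σ ^ e := by ring
  · intro ω _ hω s' t' h1 h2
    obtain ⟨u, v, hu, hv, hc⟩ := hω
    have hρ : rhoN σ b h = 2 * (rI σ b * (2 * h)) - 6 := by unfold rhoN; ring
    have hR0 : R0N b h = 2 * (b.H * h) - 3 := by unfold R0N; rw [hR]
    have h3 : ((b.H - 1 : ℕ) : ℤ) * (2 * h) = 2 * (b.H * h) - 2 * h := by
      have : ((b.H - 1 : ℕ) : ℤ) * (2 * h) = 2 * (((b.H - 1 : ℕ) : ℤ) * h) := by ring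
      rw [this, hr]
      ring
    rw [h3] at h2
    refine ⟨u, v, ?_, ?_, hc⟩
    · unfold Near at hu ⊢
      rw [hρ] at hu
      generalize (rI σ b : ℤ) * (2 * h) = A at *
      exact ⟨hu.1.trans (by omega), hu.2.trans (by omega)⟩
    · unfold Far at hv ⊢
      rw [hR0] at hv
      generalize (b.H : ℤ) * h = B at *
      rcases hv with hv | hv
      · left; exact le_trans (by omega) hv
      · right; exact le_trans (by omega) hv

end Pool.Agent.H67.W
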