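import Mathlib
import Pool.Agent.H67.W.RS
import Pool.Agent.H82.W.Flip

set_option autoImplicit false
open Finset

/-! # Route W, E10: both colours of a ring from open circuits

`ringAt_of_du` : a ring for both colours follows from the bound for dual arms (= open circuits) in the
given world and in the world shifted by one tile. -/

namespace Pool.Agent.H67.W

open Pool.Agent.H75.Perc hiding WL CT hh EE sh PB
open Pool.Agent.H75.TwoArm Pool.Agent.H75.Four Pool.Agent.H69.Q1 Pool.Agent.Q1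
open Pool.Agent.Q1.M4 (Cell)
open Pool.Agent.H60.Q1 Pool.Agent.H20.Q1 Pool.Agent.H33.Q1
open Pool.Agent.H58.W Pool.Agent.H50.W Pool.Agent.H98.W Pool.Agent.H6.W Pool.Agent.H82.W

variable {β : Type*} [DecidableEq β]

/-- labels shifted back by `(1, 1)` -/
def sm : (ℤ × ℤ) ↪ (ℤ × ℤ) where
  toFun e := (e.1 - 1, e.2 - 1)
  inj' := by
    intro a b h
    have h1 := congrArg Prod.fst h
    have h2 := congrArg Prod.snd h
    simp only at h1 h2
    exact Prod.ext (by omega) (by omega)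

lemma sh1_sm (e : ℤ × ℤ) : sh1 (sm e) = e := by
  unfold sm sh1
  simp

lemma map_sm_sh1 (F : Finset (ℤ × ℤ)) : (F.map sm).map sh1 = F := by
  ext e
  rw [mem_map]
  constructor
  · rintro ⟨e', he', rfl⟩
    obtain ⟨e'', h1, rfl⟩ := mem_map.1 he'
    rw [sh1_sm]
    exact h1
  · intro he
    exact ⟨sm e, mem_map.2 ⟨e, he, rfl⟩, sh1_sm e⟩

/-- **An open configuration is the dual of a coin model on the labels shifted by one tile.** -/
theorem PB_eq_du (F : Finset (ℤ × ℤ)) (b : ℤ × ℤ → β) (A : Finset (ℤ × ℤ) → Prop) :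
    PB F b A = PB (F.map sm) (fun e => b (sh1 e)) (fun ω => A (du (F.map sm) ω)) := by
  rw [PB_du (F.map sm) (fun e => b (sh1 e)) b (fun _ _ _ _ => Iff.rfl) A, map_sm_sh1]

/-- **both colours of a ring from dual arms in two worlds** -/
theorem ringAt_of_du {F : Finset (ℤ × ℤ)} {b : ℤ × ℤ → β} {s t : ℤ} {c : ℝ}
    (h : PB F b (fun ω => OA 0 (s + 1) (t - 1) (du F ω)) ≤ 1 - c)
    (h' : PB (F.map sm) (fun e => b (sh1 e))
      (fun ω => OA 0 (s + 1) (t - 1) (du (F.map sm) ω)) ≤ 1 - c) : RingAt F b s t c :=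
  ⟨(PB_eq_du F b _).trans_le h', h⟩

/-- an event `G` (open circuit) of probability at least `c` which excludes dual arms -/
theorem du_of_event {F : Finset (ℤ × ℤ)} {b : ℤ × ℤ → β} {s t : ℤ} {c : ℝ}
    {G : Finset (ℤ × ℤ) → Prop} (hG : c ≤ PB F b G)
    (h : ∀ ω, ω ⊆ F → G ω → ¬ OA 0 (s + 1) (t - 1) (du F ω)) :
    PB F b (fun ω => OA 0 (s + 1) (t - 1) (du F ω)) ≤ 1 - c := by
  have h1 : PB F b (fun ω => OA 0 (s + 1) (t - 1) (du F ω)) ≤ PB F b (fun ω => ¬ G ω) :=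
    PB_mono fun ω hω h2 h3 => h ω hω h3 h2
  rw [PB_not] at h1
  linarith

lemma mem_map_sm {F : Finset (ℤ × ℤ)} {e : ℤ × ℤ} : e ∈ F.map sm ↔ sh1 e ∈ F := by
  rw [mem_map]
  constructor
  · rintro ⟨e', he', rfl⟩
    rw [sh1_sm]
    exact he'
  · intro he
    refine ⟨sh1 e, he, ?_⟩
    unfold sm sh1
    simp

/-- the two label sets contain the labels of the slightly smaller annulus -/
lemma An_sub {s t : ℤ} : An 0 (s + 1) (t - 1) ⊆ An 0 s t ∧ An 0 (s + 1) (t - 1) ⊆ (An 0 s t).map sm := by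
  constructor
  · intro l hl
    rw [mem_sdiff, mem_Bx, mem_Bx] at hl ⊢
    simp only [Prod.fst_zero, Prod.snd_zero] at hl ⊢
    omega
  · intro l hl
    rw [mem_map_sm, mem_sdiff, mem_Bx, mem_Bx]
    rw [mem_sdiff, mem_Bx, mem_Bx] at hl
    simp only [Prod.fst_zero, Prod.snd_zero, sh1, Function.Embedding.coeFn_mk] at hl ⊢
    omega

/-- the square contains the annulus -/
lemma BZ_sub_EC {R h K a : ℕ} (hh : 0 < h) (hR : 2 * K * a ≤ R) :
    BZ 0 (K * a * (2 * h)) ⊆ EC R h := by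
  intro l hl
  have hn : (0 : ℤ) < 2 * (h : ℤ) := by positivity
  rw [mem_Bx] at hl
  rw [mem_TL hn]
  simp only [Prod.fst_zero, Prod.snd_zero, zero_sub, zero_add] at hl
  refine ⟨hl.2.2, ?_⟩
  have h1 : (2 * K * a : ℤ) ≤ R := by exact_mod_cast hR
  have h2 : (2 * K * a : ℤ) * (2 * h) ≤ R * (2 * h) := mul_le_mul_of_nonneg_right h1 hn.le
  generalize hU : (K : ℤ) * a * (2 * h) = U at *
  have h3 : 2 * U ≤ R * (2 * h) := by rw [← hU]; linarith
  generalize hn2 : 2 * (h : ℤ) = n at *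
  unfold RC
  rw [mem_product, mem_Ico, mem_Ico]
  unfold ct tt
  simp only
  obtain ⟨⟨a1, a2⟩, ⟨a3, a4⟩, a5⟩ := hl
  refine ⟨⟨?_, ?_⟩, ?_, ?_⟩
  · rw [Int.le_ediv_iff_mul_le hn]; linarith [show -(2 * U) ≤ (l.1 + l.2 - 1) / 2 by omega]
  · rw [Int.ediv_lt_iff_lt_mul hn]; linarith [show (l.1 + l.2 - 1) / 2 < 2 * U by omega]
  · rw [Int.le_ediv_iff_mul_le hn]; linarith [show -(2 * U) ≤ (l.2 - l.1 - 1) / 2 by omega]
  · rw [Int.ediv_lt_iff_lt_mul hn]; linarith [show (l.2 - l.1 - 1) / 2 < 2 * U by omega]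

end Pool.Agent.H67.W
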